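import Pool.Agent.SF.Model

/-! Jets at a place: sections of the residue map modulo powers of the maximal ideal. -/

set_option autoImplicit false
set_option linter.all false
set_option linter.overlappingInstances false

open FF Polynomial

namespace PL

theorem formallySmooth_field (k κ : Type*) [Field k] [Field κ] [Algebra k κ] [CharZero k] :
    Algebra.FormallySmooth k κ := by
  obtain ⟨ι, v, hv⟩ := exists_isTranscendenceBasis' k κ
  have h1 : Algebra.IsAlgebraic (IntermediateField.adjoin k (Set.range v)) κ := hv.isAlgebraic_field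
  have hc : CharZero (IntermediateField.adjoin k (Set.range v)) :=
    charZero_of_injective_algebraMap (algebraMap k _).injective
  have h2 : Algebra.IsSeparable (IntermediateField.adjoin k (Set.range v)) κ := inferInstance
  exact Algebra.FormallySmooth.of_algebraicIndependent_of_isSeparable hv.1

variable {k K : Type*} [Field k] [Field K] [Algebra k K] (P : Place k K)

/-- the ideal of elements of order at least `N` -/
def PI (N : ℕ) : Ideal P.O where
  carrier := {f | (f : K) = 0 ∨ (N : ℤ) ≤ P.ord f}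
  add_mem' := by
    intro f g hf hg
    by_cases h1 : (f : K) = 0
    · have : f = 0 := Subtype.ext h1
      rw [this, zero_add]; exact hg
    by_cases h2 : (g : K) = 0
    · have : g = 0 := Subtype.ext h2
      rw [this, add_zero]; exact hf
    by_cases h3 : (f : K) + g = 0
    · exact Or.inl h3
    · right
      have hf := hf.resolve_left h1
      have hg := hg.resolve_left h2
      exact (le_min hf hg).trans (P.ord_add h1 h2 h3)
  zero_mem' := Or.inl rfl
  smul_mem' := by
    intro c f hf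
    by_cases h1 : (f : K) = 0
    · left; change (c : K) * f = 0; rw [h1, mul_zero]
    by_cases h2 : (c : K) = 0
    · left; change (c : K) * f = 0; rw [h2, zero_mul]
    right
    have hf := hf.resolve_left h1
    have hc := (P.reg_iff h2).1 c.2
    change (N : ℤ) ≤ P.ord ((c : K) * f)
    rw [P.ord_mul h2 h1]
    omega

theorem mem_PI {N : ℕ} {f : P.O} : f ∈ PI P N ↔ ((f : K) = 0 ∨ (N : ℤ) ≤ P.ord f) := Iff.rfl

/-- `k → O_P`. -/
noncomputable def constO : k →+* P.O := (algebraMap k K).codRestrict P.O P.reg_const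

theorem constO_coe (c : k) : ((constO P c : P.O) : K) = algebraMap k K c := rfl

theorem resHom_eq_zero_iff (f : P.O) : P.resHom f = 0 ↔ ((f : K) = 0 ∨ 0 < P.ord f) := by
  have := P.red_eq_zero_iff f.2
  rwa [P.red_of_reg f.2] at this

/-- Existence of a section modulo `PI P N`. -/
theorem exists_section [CharZero k] (N : ℕ) (hN : 0 < N) :
    ∃ σ : P.RF →+* (P.O ⧸ PI P N), (∀ c : k, σ (algebraMap k P.RF c) = Ideal.Quotient.mk _ (constO P c)) ∧
      ∀ f : P.O, ∃ g : P.O, ((g : K) = 0 ∨ 0 < P.ord g) ∧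
        Ideal.Quotient.mk _ f = σ (P.resHom f) + Ideal.Quotient.mk (PI P N) g := by
  let _ : Algebra k P.O := (constO P).toAlgebra
  have hsm := formallySmooth_field k P.RF
  let r : (P.O ⧸ PI P N) →+* P.RF := Ideal.Quotient.lift (PI P N) P.resHom (by
    intro f hf
    rw [resHom_eq_zero_iff]
    rcases (mem_PI P).1 hf with h | h
    · exact Or.inl h
    · right; omega)
  have hr : ∀ f, r (Ideal.Quotient.mk _ f) = P.resHom f := fun f => Ideal.Quotient.lift_mk _ _ _
  let g : (P.O ⧸ PI P N) →ₐ[k] P.RF :=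
    { r with
      commutes' := by
        intro c
        change r (Ideal.Quotient.mk _ (constO P c)) = _
        rw [hr, Place.algebraMap_RF, P.red_of_reg (P.reg_const c)]
        rfl }
  have hg : Function.Surjective g := by
    intro c
    obtain ⟨f, rfl⟩ := P.resHom_surjective c
    exact ⟨Ideal.Quotient.mk _ f, hr f⟩
  obtain ⟨t, ht0, ht⟩ := P.surj
  let t' : P.O := ⟨t, Or.inr (by omega)⟩
  have hker : ∀ f : P.O, ((f : K) = 0 ∨ 0 < P.ord f) → ∃ g : P.O, f = t' * g := by
    intro f hf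
    by_cases h0 : (f : K) = 0
    · exact ⟨0, Subtype.ext (by simpa using h0)⟩
    · have h1 := hf.resolve_left h0
      refine ⟨⟨f / t, Or.inr ?_⟩, ?_⟩
      · rw [P.ord_div h0 ht0]; omega
      · ext
        change (f : K) = t * (f / t)
        field_simp
  have hnil : IsNilpotent (RingHom.ker g) := by
    refine ⟨N, ?_⟩
    have h1 : RingHom.ker g ≤ Ideal.span {Ideal.Quotient.mk _ t'} := by
      intro q hq
      obtain ⟨f, rfl⟩ := Ideal.Quotient.mk_surjective q
      have h2 : P.resHom f = 0 := by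
        rw [← hr]; exact hq
      obtain ⟨h, rfl⟩ := hker f ((resHom_eq_zero_iff P f).1 h2)
      rw [map_mul]
      exact Ideal.mul_mem_right _ _ (Ideal.mem_span_singleton_self _)
    have h2 : (Ideal.span {Ideal.Quotient.mk (PI P N) t'}) ^ N = ⊥ := by
      rw [Ideal.span_singleton_pow, ← map_pow, Ideal.span_singleton_eq_bot, Ideal.Quotient.eq_zero_iff_mem,
        mem_PI]
      right
      change (N : ℤ) ≤ P.ord (t ^ N)
      rw [P.ord_pow, ht]; simp
    rw [Ideal.zero_eq_bot, eq_bot_iff, ← h2]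
    exact Ideal.pow_right_mono h1 N
  let σ := Algebra.FormallySmooth.liftOfSurjective (AlgHom.id k P.RF) g hg hnil
  have hσ : ∀ c, g (σ c) = c := by
    intro c
    have := Algebra.FormallySmooth.comp_liftOfSurjective (AlgHom.id k P.RF) g hg hnil
    exact DFunLike.congr_fun this c
  refine ⟨σ.toRingHom, ?_, ?_⟩
  · intro c
    change σ (algebraMap k P.RF c) = _
    rw [σ.commutes]; rfl
  · intro f
    obtain ⟨h, hh⟩ := Ideal.Quotient.mk_surjective (Ideal.Quotient.mk (PI P N) f - σ (P.resHom f))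
    refine ⟨h, ?_, ?_⟩
    · rw [← resHom_eq_zero_iff, ← hr, hh, map_sub, hr]
      change P.resHom f - g (σ _) = 0
      rw [hσ, sub_self]
    · rw [hh]
      change _ = σ (P.resHom f) + _
      ring

section ev
variable {N : ℕ} (σ : P.RF →+* (P.O ⧸ PI P N)) (π : P.O)

/-- the evaluation `κ[T] → O / m^N`, `T ↦ π`, constants through the section -/
noncomputable def ev : P.RF[X] →+* (P.O ⧸ PI P N) := eval₂RingHom σ (Ideal.Quotient.mk _ π)

theorem ev_X : ev P σ π X = Ideal.Quotient.mk _ π := by simp [ev]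
theorem ev_C (c : P.RF) : ev P σ π (C c) = σ c := by simp [ev]

theorem exists_mul_of_pos {π : P.O} (hπ : P.ord π = 1) (f : P.O) (hf : (f : K) = 0 ∨ 0 < P.ord f) :
    ∃ g : P.O, f = π * g := by
  have hπ0 : (π : K) ≠ 0 := by
    intro h; rw [h, P.ord_zero] at hπ; omega
  by_cases h0 : (f : K) = 0
  · exact ⟨0, Subtype.ext (by simpa using h0)⟩
  · have h1 := hf.resolve_left h0
    refine ⟨⟨f / π, Or.inr ?_⟩, ?_⟩
    · rw [P.ord_div h0 hπ0]; omega
    · ext
      change (f : K) = π * (f / π)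
      field_simp

variable {σ π}
variable (hσ : ∀ f : P.O, ∃ g : P.O, ((g : K) = 0 ∨ 0 < P.ord g) ∧
        Ideal.Quotient.mk _ f = σ (P.resHom f) + Ideal.Quotient.mk (PI P N) g)
  (hπ : P.ord π = 1)

include hσ hπ

theorem ev_approx (f : P.O) (j : ℕ) : ∃ (F : P.RF[X]) (g : P.O),
    Ideal.Quotient.mk _ f = ev P σ π F + Ideal.Quotient.mk _ (π ^ j * g) := by
  induction j with
  | zero => exact ⟨0, f, by simp⟩
  | succ j ih =>
    obtain ⟨F, g, h⟩ := ih
    obtain ⟨g', hg', h'⟩ := hσ g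
    obtain ⟨g'', rfl⟩ := exists_mul_of_pos P hπ g' hg'
    refine ⟨F + C (P.resHom g) * X ^ j, g'', ?_⟩
    rw [h, map_mul, h', map_add, map_mul (ev P σ π), map_pow (ev P σ π), ev_X, ev_C, pow_succ]
    simp only [map_mul, map_pow]
    ring

theorem ev_surjective : Function.Surjective (ev P σ π) := by
  intro q
  obtain ⟨f, rfl⟩ := Ideal.Quotient.mk_surjective q
  obtain ⟨F, g, h⟩ := ev_approx P hσ hπ f N
  refine ⟨F, ?_⟩
  rw [h]
  have : Ideal.Quotient.mk (PI P N) (π ^ N * g) = 0 := by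
    rw [Ideal.Quotient.eq_zero_iff_mem]
    refine Ideal.mul_mem_right _ _ ?_
    rw [mem_PI]
    right
    change (N : ℤ) ≤ P.ord ((π : K) ^ N)
    rw [P.ord_pow, hπ]; simp
  rw [this, add_zero]

theorem ev_coeff {f : P.O} {F : P.RF[X]} (hF : ev P σ π F = Ideal.Quotient.mk _ f) {μ : ℕ}
    (hμ : μ < N) (h0 : ∀ i < μ, F.coeff i = 0) :
    P.Reg ((f : K) / (π : K) ^ μ) ∧ P.red ((f : K) / (π : K) ^ μ) = F.coeff μ := by
  have hπ0 : (π : K) ≠ 0 := by
    intro h; rw [h, P.ord_zero] at hπ; omega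
  obtain ⟨F1, rfl⟩ := X_pow_dvd_iff.2 h0
  have hc : (X ^ μ * F1).coeff μ = F1.coeff 0 := by
    have := coeff_X_pow_mul F1 μ 0
    rwa [zero_add] at this
  rw [hc]
  obtain ⟨fc, hfc⟩ := P.resHom_surjective (F1.coeff 0)
  obtain ⟨g, hg, hfg⟩ := hσ fc
  obtain ⟨h, hh⟩ := Ideal.Quotient.mk_surjective (ev P σ π F1.divX)
  have h1 : ev P σ π (X ^ μ * F1) = Ideal.Quotient.mk _ (π ^ μ * (fc - g + h * π)) := by
    conv_lhs => rw [← F1.divX_mul_X_add]
    rw [map_mul, map_pow, map_add, map_mul, ev_X, ev_C, ← hh, ← hfc]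
    rw [map_mul, map_pow, map_add, map_sub, hfg, map_mul]
    ring
  rw [h1, Ideal.Quotient.eq, mem_PI] at hF
  set u : P.O := fc - g + h * π with hu
  -- f = π^μ u - r
  obtain ⟨r, hr⟩ : ∃ r : P.O, r = π ^ μ * u - f := ⟨_, rfl⟩
  rw [← hr] at hF
  have hr' : P.Reg ((r : K) / (π : K) ^ μ) ∧ P.red ((r : K) / (π : K) ^ μ) = 0 := by
    rcases hF with h0 | h0
    · rw [h0, zero_div]; exact ⟨P.reg_zero, P.red_zero⟩
    · by_cases hr0 : (r : K) = 0
      · rw [hr0, zero_div]; exact ⟨P.reg_zero, P.red_zero⟩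
      have h2 : 0 < P.ord ((r : K) / (π : K) ^ μ) := by
        rw [P.ord_div hr0 (pow_ne_zero _ hπ0), P.ord_pow, hπ]; omega
      have h3 : P.Reg ((r : K) / (π : K) ^ μ) := Or.inr h2.le
      exact ⟨h3, (P.red_eq_zero_iff h3).2 (Or.inr h2)⟩
  have hfr : (f : K) / (π : K) ^ μ = (u : K) - (r : K) / (π : K) ^ μ := by
    have : (r : K) = (π : K) ^ μ * u - f := by rw [hr]; rfl
    rw [this]
    have := pow_ne_zero μ hπ0
    field_simp
    ring
  rw [hfr]
  refine ⟨?_, ?_⟩
  · rw [sub_eq_add_neg]; exact P.reg_add u.2 (P.reg_neg hr'.1)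
  · rw [P.red_sub u.2 hr'.1, hr'.2, sub_zero, P.red_of_reg u.2]
    change P.resHom u = _
    have hg0 : P.resHom g = 0 := (resHom_eq_zero_iff P g).2 hg
    have hπ1 : P.resHom π = 0 := (resHom_eq_zero_iff P π).2 (Or.inr (by omega))
    rw [hu, map_add, map_sub, hfc, hg0, map_mul, hπ1, mul_zero, sub_zero, add_zero]

theorem ev_ker {F : P.RF[X]} (hF : ev P σ π F = 0) : X ^ N ∣ F := by
  rw [X_pow_dvd_iff]
  intro d
  induction d using Nat.strong_induction_on with
  | _ d ih =>
    intro hd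
    have := ev_coeff P hσ hπ (f := 0) (F := F) (by rw [hF, map_zero]) hd (fun i hi => ih i hi (hi.trans hd))
    rw [← this.2]
    change P.red ((0 : K) / _) = 0
    rw [zero_div, P.red_zero]

theorem ev_lead {f : P.O} {F : P.RF[X]} (hF : ev P σ π F = Ideal.Quotient.mk _ f) {μ : ℕ}
    (hμ : μ < N) (hf0 : (f : K) ≠ 0) (hf : P.ord f = μ) :
    (∀ i < μ, F.coeff i = 0) ∧ F.coeff μ = P.red ((f : K) / (π : K) ^ μ) := by
  have hπ0 : (π : K) ≠ 0 := by
    intro h; rw [h, P.ord_zero] at hπ; omega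
  have h1 : ∀ i < μ, F.coeff i = 0 := by
    intro d
    induction d using Nat.strong_induction_on with
    | _ d ih =>
      intro hd
      have := ev_coeff P hσ hπ hF (hd.trans hμ) (fun i hi => ih i hi (hi.trans hd))
      rw [← this.2, P.red_eq_zero_iff this.1]
      right
      rw [P.ord_div hf0 (pow_ne_zero _ hπ0), P.ord_pow, hπ]; omega
  exact ⟨h1, (ev_coeff P hσ hπ hF hμ h1).2.symm⟩

end ev

/-- Normalisation of the uniformiser: `y ≡ c π^m`. -/
theorem exists_unif [CharZero k] {N : ℕ} (hN : 0 < N) (σ : P.RF →+* (P.O ⧸ PI P N))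
    (hσ : ∀ f : P.O, ∃ g : P.O, ((g : K) = 0 ∨ 0 < P.ord g) ∧
        Ideal.Quotient.mk _ f = σ (P.resHom f) + Ideal.Quotient.mk (PI P N) g)
    (π₀ : P.O) (hπ₀ : P.ord π₀ = 1) (y : P.O) (hy0 : (y : K) ≠ 0) (m : ℕ) (hm : 0 < m) (hy : P.ord y = m) :
    ∃ π : P.O, P.ord π = 1 ∧
      Ideal.Quotient.mk (PI P N) y = σ (P.red ((y : K) / (π₀ : K) ^ m)) * Ideal.Quotient.mk _ (π ^ m) := by
  have hπ0 : (π₀ : K) ≠ 0 := by
    intro h; rw [h, P.ord_zero] at hπ₀; omega
  have hpm := pow_ne_zero m hπ0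
  have hu0 : P.ord ((y : K) / (π₀ : K) ^ m) = 0 := by
    rw [P.ord_div hy0 hpm, P.ord_pow, hπ₀, hy]; ring
  let u : P.O := ⟨(y : K) / (π₀ : K) ^ m, Or.inr hu0.ge⟩
  have hc : P.resHom u = P.red ((y : K) / (π₀ : K) ^ m) := (P.red_of_reg u.2).symm
  have hc0 : P.resHom u ≠ 0 := by
    rw [hc]; exact P.red_ne_zero (div_ne_zero hy0 hpm) hu0
  rw [← hc]
  set c := P.resHom u with hcdef
  obtain ⟨g, hg, hu⟩ := hσ u
  rw [← hcdef] at hu
  have hcc : σ c * σ c⁻¹ = 1 := by rw [← map_mul, mul_inv_cancel₀ hc0, map_one]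
  have hnil : ∀ g : P.O, ((g : K) = 0 ∨ 0 < P.ord g) → IsNilpotent (Ideal.Quotient.mk (PI P N) g) := by
    intro g hg
    obtain ⟨h, rfl⟩ := exists_mul_of_pos P hπ₀ g hg
    refine ⟨N, ?_⟩
    rw [← map_pow, Ideal.Quotient.eq_zero_iff_mem, mul_pow]
    refine Ideal.mul_mem_right _ _ ?_
    rw [mem_PI]
    right
    change (N : ℤ) ≤ P.ord ((π₀ : K) ^ N)
    rw [P.ord_pow, hπ₀]; simp
  set Q := P.O ⧸ PI P N
  let _ : Algebra k Q := ((Ideal.Quotient.mk (PI P N)).comp (constO P)).toAlgebra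
  set z : Q := Ideal.Quotient.mk _ u * σ c⁻¹ with hz
  have hz1 : IsNilpotent (1 - z) := by
    have : 1 - z = -(Ideal.Quotient.mk _ g * σ c⁻¹) := by
      rw [hz, hu, add_mul, hcc]; ring
    rw [this]
    exact ((Commute.all _ _).isNilpotent_mul_right (hnil g hg)).neg
  obtain ⟨v, ⟨hv1, hv2⟩, -⟩ := Polynomial.existsUnique_nilpotent_sub_and_aeval_eq_zero
    (R := Q) (S := Q) (P := X ^ m - C z) (x := 1) (by simpa using hz1) (by
      have h1 : (aeval (1 : Q)) (derivative (X ^ m - C z : Q[X])) = algebraMap k Q (m : k) := by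
        rw [derivative_sub, derivative_C, sub_zero, derivative_X_pow]
        simp
      rw [h1]
      exact (IsUnit.mk0 (m : k) (by exact_mod_cast hm.ne')).map _)
  have hvm : v ^ m = z := by
    have : v ^ m - z = 0 := by simpa using hv2
    exact sub_eq_zero.1 this
  obtain ⟨v0, rfl⟩ := Ideal.Quotient.mk_surjective v
  -- v0 has residue 1
  have hv0 : P.resHom (1 - v0) = 0 := by
    obtain ⟨n, hn⟩ := hv1
    have h2 : (1 - v0) ^ n ∈ PI P N := by
      rw [← Ideal.Quotient.eq_zero_iff_mem, map_pow, map_sub, map_one]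
      exact hn
    have h3 : P.resHom ((1 - v0) ^ n) = 0 := by
      rw [resHom_eq_zero_iff]
      rcases (mem_PI P).1 h2 with h | h
      · exact Or.inl h
      · right; omega
    rw [map_pow] at h3
    exact pow_eq_zero_iff (n := n) (by
      rintro rfl
      simp at h3) |>.1 h3
  have hv3 : P.resHom v0 = 1 := by
    rw [map_sub, map_one, sub_eq_zero] at hv0
    exact hv0.symm
  have hv4 : ¬ ((v0 : K) = 0 ∨ 0 < P.ord v0) := by
    rw [← resHom_eq_zero_iff, hv3]; exact one_ne_zero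
  push Not at hv4
  have hv5 : P.ord v0 = 0 := le_antisymm hv4.2 ((P.reg_iff hv4.1).1 v0.2)
  refine ⟨π₀ * v0, ?_, ?_⟩
  · change P.ord ((π₀ : K) * v0) = 1
    rw [P.ord_mul hπ0 hv4.1, hπ₀, hv5]; rfl
  · have hyu : y = π₀ ^ m * u := by
      ext
      change (y : K) = (π₀ : K) ^ m * ((y : K) / (π₀ : K) ^ m)
      field_simp
    rw [mul_pow, map_mul, map_pow (Ideal.Quotient.mk (PI P N)) v0, hvm, hz, hyu, map_mul]
    linear_combination (-(Ideal.Quotient.mk (PI P N) (π₀ ^ m) * Ideal.Quotient.mk (PI P N) u)) * hcc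

end PL
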