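import Pool.Agent.Helper807.PL.Subst
import Pool.Agent.Helper807.PL.Hensel

/-! Extension of homomorphisms from finitely generated subalgebras. -/

set_option autoImplicit false
set_option linter.all false

open HahnSeries Module Polynomial

namespace PL

section iotaV
variable {k κ : Type*} [Field k] [Field κ] (φ : k →+* κ) (c : κ) (hc : c ≠ 0) (m : ℕ) (hm : 0 < m)

/-- restriction of `iota` to power series -/
theorem exists_iotaV : ∃ j : PowerSeries k →+* PowerSeries κ,
    (∀ F, ofPowerSeries ℤ κ (j F) = iota φ c hc m hm (ofPowerSeries ℤ k F)) ∧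
    (∀ a, j (PowerSeries.C a) = PowerSeries.C (φ a)) ∧
    j PowerSeries.X = PowerSeries.C c * PowerSeries.X ^ m := by
  have h : ∀ F : PowerSeries k, ∃ G : PowerSeries κ,
      ofPowerSeries ℤ κ G = iota φ c hc m hm (ofPowerSeries ℤ k F) := by
    intro F
    refine ⟨PowerSeries.mk fun n => (iota φ c hc m hm (ofPowerSeries ℤ k F)).coeff n, ?_⟩
    ext n
    rw [PowerSeries.coeff_coe]
    split_ifs with hn
    · by_cases hd : (m : ℤ) ∣ n
      · obtain ⟨q, rfl⟩ := hd
        have hq : q < 0 := by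
          have hm' : (0 : ℤ) < m := by exact_mod_cast hm
          nlinarith
        rw [iota_coeff_mul, PowerSeries.coeff_coe, if_pos hq]
        simp
      · rw [iota_coeff_not_dvd _ _ _ _ _ _ _ hd]
    · rw [PowerSeries.coeff_mk]
      congr 1
      omega
  choose j hj using h
  have hinj := HahnSeries.ofPowerSeries_injective (Γ := ℤ) (R := κ)
  refine ⟨{ toFun := j, map_one' := ?_, map_mul' := ?_, map_zero' := ?_, map_add' := ?_ }, hj, ?_, ?_⟩
  · apply hinj; rw [hj]; simp
  · intro a b; apply hinj; rw [hj, map_mul, map_mul, map_mul, hj, hj]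
  · apply hinj; rw [hj]; simp
  · intro a b; apply hinj; rw [hj, map_add, map_add, map_add, hj, hj]
  · intro a
    apply hinj
    change ofPowerSeries ℤ κ (j (PowerSeries.C a)) = _
    rw [hj, ofPowerSeries_C, ofPowerSeries_C, iota_C]
  · apply hinj
    change ofPowerSeries ℤ κ (j PowerSeries.X) = _
    rw [hj, ofPowerSeries_X, iota_single, map_mul, map_pow, ofPowerSeries_C, ofPowerSeries_X]
    rw [single_pow]
    simp [C_apply]

/-- ring homs from power series into rings where `X` goes to a nilpotent element. -/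
theorem powerSeries_hom_ext {Q : Type*} [CommRing Q] (f g : PowerSeries k →+* Q)
    (h1 : ∀ a, f (PowerSeries.C a) = g (PowerSeries.C a)) (h2 : f PowerSeries.X = g PowerSeries.X)
    (h3 : IsNilpotent (f PowerSeries.X)) : f = g := by
  obtain ⟨n, hn⟩ := h3
  have hp : ∀ p : k[X], f (p : PowerSeries k) = g (p : PowerSeries k) := by
    intro p
    have : f.comp (Polynomial.coeToPowerSeries.ringHom (R := k)) = g.comp (Polynomial.coeToPowerSeries.ringHom (R := k)) := by
      apply Polynomial.ringHom_ext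
      · intro a; simpa using h1 a
      · simpa using h2
    exact RingHom.congr_fun this p
  ext F
  have hF := PowerSeries.eq_X_pow_mul_shift_add_trunc n F
  rw [hF, map_add, map_add, hp, map_mul, map_mul, map_pow, map_pow, ← h2, hn]
  simp

end iotaV

/-- Extension of a ring homomorphism to a localisation. -/
theorem extend_away {L Ψ : Type*} [Field L] [Field Ψ] (B : Subring L) (ϑ : B →+* Ψ) (h : B) (hh : ϑ h ≠ 0) :
    ∃ (B' : Subring L) (ϑ' : B' →+* Ψ), (∀ z, z ∈ B' ↔ ∃ j : ℕ, (h : L) ^ j * z ∈ B) ∧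
      (∀ b (hb : b ∈ B) (hb' : b ∈ B'), ϑ' ⟨b, hb'⟩ = ϑ ⟨b, hb⟩) := by
  have wd : ∀ (z : L) (i j : ℕ) (hi : (h : L) ^ i * z ∈ B) (hj : (h : L) ^ j * z ∈ B),
      ϑ ⟨_, hi⟩ / ϑ h ^ i = ϑ ⟨_, hj⟩ / ϑ h ^ j := by
    intro z i j hi hj
    rw [div_eq_div_iff (pow_ne_zero _ hh) (pow_ne_zero _ hh), ← map_pow, ← map_pow, ← map_mul, ← map_mul]
    congr 1
    ext
    change (h : L) ^ i * z * (h : L) ^ j = (h : L) ^ j * z * (h : L) ^ i
    ring
  let B' : Subring L :=
    { carrier := {z | ∃ j : ℕ, (h : L) ^ j * z ∈ B}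
      one_mem' := ⟨0, by simp⟩
      zero_mem' := ⟨0, by simp⟩
      mul_mem' := by
        rintro a b ⟨i, hi⟩ ⟨j, hj⟩
        refine ⟨i + j, ?_⟩
        have : (h : L) ^ (i + j) * (a * b) = ((h : L) ^ i * a) * ((h : L) ^ j * b) := by ring
        rw [this]; exact B.mul_mem hi hj
      add_mem' := by
        rintro a b ⟨i, hi⟩ ⟨j, hj⟩
        refine ⟨i + j, ?_⟩
        have : (h : L) ^ (i + j) * (a + b) = (h : L) ^ j * ((h : L) ^ i * a) + (h : L) ^ i * ((h : L) ^ j * b) := by ring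
        rw [this]
        exact B.add_mem (B.mul_mem (B.pow_mem h.2 _) hi) (B.mul_mem (B.pow_mem h.2 _) hj)
      neg_mem' := by
        rintro a ⟨i, hi⟩
        refine ⟨i, ?_⟩
        rw [mul_neg]; exact B.neg_mem hi }
  let e : B' → ℕ := fun z => z.2.choose
  have he : ∀ z : B', (h : L) ^ (e z) * (z : L) ∈ B := fun z => z.2.choose_spec
  have key : ∀ (z : B') (j : ℕ) (hj : (h : L) ^ j * (z : L) ∈ B),
      ϑ ⟨_, he z⟩ / ϑ h ^ (e z) = ϑ ⟨_, hj⟩ / ϑ h ^ j := fun z j hj => wd z _ _ _ _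
  have hB : ∀ b (hb : b ∈ B) (hb' : b ∈ B'), ϑ ⟨_, he ⟨b, hb'⟩⟩ / ϑ h ^ (e ⟨b, hb'⟩) = ϑ ⟨b, hb⟩ := by
    intro b hb hb'
    have h0 : (h : L) ^ 0 * b ∈ B := by simpa using hb
    rw [key ⟨b, hb'⟩ 0 h0, pow_zero (ϑ h), div_one]
    congr 1
    ext
    simp
  refine ⟨B', { toFun := fun z => ϑ ⟨_, he z⟩ / ϑ h ^ (e z), map_one' := ?_, map_mul' := ?_, map_zero' := ?_, map_add' := ?_ }, fun z => Iff.rfl, hB⟩
  · exact (hB 1 B.one_mem B'.one_mem).trans (map_one ϑ)
  · intro a b
    have hab : (h : L) ^ (e a + e b) * ((a * b : B') : L) ∈ B := by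
      have : (h : L) ^ (e a + e b) * ((a * b : B') : L) = ((h : L) ^ (e a) * a) * ((h : L) ^ (e b) * b) := by
        push_cast; ring
      rw [this]; exact B.mul_mem (he a) (he b)
    rw [key (a * b) _ hab, div_mul_div_comm, ← map_mul, ← _root_.pow_add]
    congr 2
    ext
    push_cast; ring
  · exact (hB 0 B.zero_mem B'.zero_mem).trans (map_zero ϑ)
  · intro a b
    have hab : (h : L) ^ (e a + e b) * ((a + b : B') : L) ∈ B := by
      have : (h : L) ^ (e a + e b) * ((a + b : B') : L) = (h : L) ^ (e b) * ((h : L) ^ (e a) * a) + (h : L) ^ (e a) * ((h : L) ^ (e b) * b) := by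
        push_cast; ring
      rw [this]
      exact B.add_mem (B.mul_mem (B.pow_mem h.2 _) (he a)) (B.mul_mem (B.pow_mem h.2 _) (he b))
    rw [key (a + b) _ hab, div_add_div _ _ (pow_ne_zero _ hh) (pow_ne_zero _ hh), ← _root_.pow_add]
    congr 1
    rw [← map_pow, ← map_pow, ← map_mul, ← map_mul, ← map_add]
    congr 1
    ext
    push_cast; ring

end PL
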