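import Pool.Agent.Helper807.PL.Ext
import Pool.Agent.Helper807.PL.AlgData

/-! Algebraic part: homomorphisms from finitely generated subalgebras of a function field. -/

set_option autoImplicit false
set_option linter.all false

open Module Polynomial FF

namespace PL

theorem common_denom {R L : Type*} [Field R] [Field L] [Algebra R L] (al : R[X] →+* L) (η : L)
    (h : ∀ z : L, ∃ (h : R[X]) (P : R[X][X]), h ≠ 0 ∧ al h * z = P.eval₂ al η) (s : Finset L) :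
    ∃ h : R[X], h ≠ 0 ∧ ∀ z ∈ s, ∃ P : R[X][X], al h * z = P.eval₂ al η := by
  classical
  induction s using Finset.induction_on with
  | empty => exact ⟨1, one_ne_zero, by simp⟩
  | insert a s ha ih =>
    obtain ⟨h1, h10, h1s⟩ := ih
    obtain ⟨h2, P, h20, hP⟩ := h a
    refine ⟨h1 * h2, mul_ne_zero h10 h20, ?_⟩
    intro z hz
    rw [Finset.mem_insert] at hz
    rcases hz with rfl | hz
    · refine ⟨C h1 * P, ?_⟩
      rw [eval₂_mul, eval₂_C, ← hP, map_mul]; ring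
    · obtain ⟨Q, hQ⟩ := h1s z hz
      refine ⟨C h2 * Q, ?_⟩
      rw [eval₂_mul, eval₂_C, ← hQ, map_mul]; ring

theorem factor_hom {A L Ψ : Type*} [CommRing A] [CommRing L] [CommRing Ψ] (E2 : A →+* L) (EΨ : A →+* Ψ)
    (hker : ∀ P, E2 P = 0 → EΨ P = 0) :
    ∃ ϑ : E2.range →+* Ψ, ∀ P (h : E2 P ∈ E2.range), ϑ ⟨E2 P, h⟩ = EΨ P := by
  have hk : RingHom.ker E2.rangeRestrict ≤ RingHom.ker EΨ := by
    intro P hP
    exact hker P (congrArg Subtype.val hP)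
  refine ⟨RingHom.liftOfSurjective E2.rangeRestrict E2.rangeRestrict_surjective ⟨EΨ, hk⟩, ?_⟩
  intro P h
  exact RingHom.liftOfSurjective_comp_apply E2.rangeRestrict E2.rangeRestrict_surjective ⟨EΨ, hk⟩ P

theorem main_alg {V R L : Type*} [CommRing V] [Field R] [CharZero R] [Field L] [Algebra R L]
    [IsFF R L] (f : V →+* R) (t : V) (ht : f t ≠ 0)
    (h0 : ∀ b : R, ∃ (n : ℕ) (a : V), f a = f t ^ n * b) (Pos : L → Prop)
    (hPos : ∀ z : L, ∃ n : ℕ, Pos (algebraMap R L (f t) ^ n * z)) (s : Finset L) :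
    ∃ (ξ η : L) (G : V[X][X]) (H0 : V[X]), Pos ξ ∧ Pos η ∧
      G.eval₂ (eval₂RingHom ((algebraMap R L).comp f) ξ) η = 0 ∧
      G.derivative.eval₂ (eval₂RingHom ((algebraMap R L).comp f) ξ) η ≠ 0 ∧
      eval₂RingHom ((algebraMap R L).comp f) ξ H0 ≠ 0 ∧
      ∀ (Ψ : Type*) [Field Ψ] (ι : R →+* Ψ) (ξ' η' : Ψ),
        G.eval₂ (eval₂RingHom (ι.comp f) ξ') η' = 0 → eval₂RingHom (ι.comp f) ξ' H0 ≠ 0 →
        ∃ φ : Algebra.adjoin R (s : Set L) →+* Ψ, ∀ r, φ (algebraMap _ _ r) = ι r := by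
  obtain ⟨ξ, η, g, hξ, hη, htr, hgm, hg0, hg1, hgd, hgz⟩ := alg_data (R := R) (f t) ht Pos hPos
  obtain ⟨al, hal_def⟩ : ∃ al : R[X] →+* L, al = (aeval ξ : R[X] →ₐ[R] L).toRingHom := ⟨_, rfl⟩
  rw [← hal_def] at hg0 hg1 hgd
  have hgz' : ∀ z : L, ∃ (h : R[X]) (P : R[X][X]), h ≠ 0 ∧ al h * z = P.eval₂ al η := by
    intro z
    obtain ⟨h, P, hh, hP⟩ := hgz z
    exact ⟨h, P, hh, by rw [hal_def]; exact hP⟩
  have hal : Function.Injective al := by rw [hal_def]; exact (transcendental_iff_injective.1 htr)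
  have halC : ∀ r : R, al (C r) = algebraMap R L r := by
    intro r; rw [hal_def]; change aeval ξ (C r) = _; rw [aeval_C]
  have halX : al X = ξ := by rw [hal_def]; change aeval ξ X = _; rw [aeval_X]
  have h1 := clear_denoms f t h0
  have h2 := clear_denoms (mapRingHom f) (C t) h1
  obtain ⟨n, G, hG⟩ := h2 g
  obtain ⟨h, hh0, hhs⟩ := common_denom al η hgz' s
  obtain ⟨n2, H0, hH0⟩ := h1 h
  have heξ : eval₂RingHom ((algebraMap R L).comp f) ξ = al.comp (mapRingHom f) := by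
    refine Polynomial.ringHom_ext (fun a => ?_) ?_
    · change eval₂ ((algebraMap R L).comp f) ξ (C a) = al ((C a).map f)
      rw [Polynomial.map_C, halC, eval₂_C]; rfl
    · change eval₂ ((algebraMap R L).comp f) ξ X = al ((X : V[X]).map f)
      rw [Polynomial.map_X, halX, eval₂_X]
  have hCC : ((C (C t) : V[X][X])).map (mapRingHom f) = C (C (f t)) := by
    simp
  have hCX : ((C t : V[X])).map f = C (f t) := by
    simp
  rw [hCC] at hG
  rw [hCX] at hH0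
  have hyL0 : algebraMap R L (f t) ≠ 0 := by
    rw [Ne, map_eq_zero]; exact ht
  refine ⟨ξ, η, G, H0, hξ, hη, ?_, ?_, ?_, ?_⟩
  · rw [heξ, ← Polynomial.eval₂_map, hG, eval₂_mul, hg0, mul_zero]
  · rw [heξ, ← Polynomial.eval₂_map, ← Polynomial.derivative_map, hG]
    rw [← C_pow, derivative_C_mul, eval₂_mul, eval₂_C, map_pow, halC]
    exact mul_ne_zero (pow_ne_zero _ hyL0) hg1
  · rw [heξ]
    change al (H0.map f) ≠ 0
    rw [hH0, map_mul, map_pow, halC]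
    refine mul_ne_zero (pow_ne_zero _ hyL0) ?_
    intro h3
    exact hh0 (hal (by rw [h3, map_zero]))
  intro Ψ _ ι ξ' η' hGΨ hHΨ
  obtain ⟨ϑ0, hϑ0⟩ : ∃ ϑ0 : R[X] →+* Ψ, ϑ0 = eval₂RingHom ι ξ' := ⟨_, rfl⟩
  have hϑ0C : ∀ r : R, ϑ0 (C r) = ι r := fun r => by rw [hϑ0]; exact eval₂_C _ _
  have hϑ0X : ϑ0 X = ξ' := by rw [hϑ0]; exact eval₂_X _ _
  have F6 : eval₂RingHom (ι.comp f) ξ' = ϑ0.comp (mapRingHom f) := by
    refine Polynomial.ringHom_ext (fun a => ?_) ?_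
    · change eval₂ (ι.comp f) ξ' (C a) = ϑ0 ((C a).map f)
      rw [Polynomial.map_C, eval₂_C, hϑ0C]; rfl
    · change eval₂ (ι.comp f) ξ' X = ϑ0 ((X : V[X]).map f)
      rw [Polynomial.map_X, eval₂_X, hϑ0X]
  have hιy : ι (f t) ≠ 0 := by
    rw [Ne, map_eq_zero]; exact ht
  have F7 : g.eval₂ ϑ0 η' = 0 := by
    rw [F6, ← Polynomial.eval₂_map, hG, eval₂_mul, eval₂_pow, eval₂_C, hϑ0C] at hGΨ
    exact (mul_eq_zero.1 hGΨ).resolve_left (pow_ne_zero _ hιy)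
  obtain ⟨ϑ, hϑ⟩ := factor_hom (eval₂RingHom al η) (eval₂RingHom ϑ0 η') (by
    intro P hP
    obtain ⟨q, rfl⟩ := hgd P hP
    rw [map_mul]
    change g.eval₂ ϑ0 η' * _ = 0
    rw [F7, zero_mul])
  have hmemB : ∀ P : R[X][X], P.eval₂ al η ∈ (eval₂RingHom al η).range := fun P => ⟨P, rfl⟩
  have hCh : (C h : R[X][X]).eval₂ al η = al h := eval₂_C _ _
  have hϑh : ϑ ⟨_, hmemB (C h)⟩ ≠ 0 := by
    have h3 := hϑ (C h) (hmemB _)
    rw [show ϑ ⟨_, hmemB (C h)⟩ = _ from h3]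
    change eval₂ ϑ0 η' (C h) ≠ 0
    rw [eval₂_C]
    intro h4
    apply hHΨ
    rw [F6]
    change ϑ0 (H0.map f) = 0
    rw [hH0, map_mul, h4, mul_zero]
  obtain ⟨B', ϑ', hB', hϑ'⟩ := extend_away (eval₂RingHom al η).range ϑ ⟨_, hmemB (C h)⟩ hϑh
  have hrB : ∀ r : R, algebraMap R L r ∈ (eval₂RingHom al η).range := by
    intro r
    refine ⟨C (C r), ?_⟩
    change eval₂ al η (C (C r)) = _
    rw [eval₂_C, halC]
  have hrB' : ∀ r : R, algebraMap R L r ∈ B' := by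
    intro r
    rw [hB']
    exact ⟨0, by simpa using hrB r⟩
  have hsub : ∀ x : L, x ∈ Algebra.adjoin R (s : Set L) → x ∈ B' := by
    intro x hx
    induction hx using Algebra.adjoin_induction with
    | mem x hx =>
      rw [hB']
      obtain ⟨P, hP⟩ := hhs x hx
      refine ⟨1, ?_⟩
      rw [pow_one]
      change eval₂ al η (C h) * x ∈ _
      rw [eval₂_C, hP]
      exact ⟨P, rfl⟩
    | algebraMap r => exact hrB' r
    | add x y _ _ hx hy => exact B'.add_mem hx hy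
    | mul x y _ _ hx hy => exact B'.mul_mem hx hy
  let incl : Algebra.adjoin R (s : Set L) →+* B' :=
    (Algebra.adjoin R (s : Set L)).val.toRingHom.codRestrict B' (fun x => hsub x x.2)
  refine ⟨ϑ'.comp incl, ?_⟩
  intro r
  change ϑ' ⟨algebraMap R L r, hrB' r⟩ = _
  rw [hϑ' _ (hrB r)]
  have h3 : (⟨algebraMap R L r, hrB r⟩ : (eval₂RingHom al η).range) = ⟨_, hmemB (C (C r))⟩ := by
    ext
    change _ = eval₂ al η (C (C r))
    rw [eval₂_C, halC]
  rw [h3, show ϑ ⟨_, hmemB (C (C r))⟩ = _ from hϑ (C (C r)) (hmemB _)]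
  change eval₂ ϑ0 η' (C (C r)) = _
  rw [eval₂_C, hϑ0C]

end PL
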