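import Pool.Agent.Helper807.PL.PLII

/-! The point lemma, case I (flags). -/

set_option autoImplicit false
set_option linter.all false

open Module Polynomial FF SF
open HahnSeries (ofPowerSeries ofPowerSeries_X ofPowerSeries_C)

namespace PL

section
variable {k K : Type*} [Field k] [Field K] [Algebra k K] (p : Place k K)

/-- lower bound for the orders of the coefficients of a polynomial -/
theorem exists_bound (F : K[X]) : ∃ B : ℕ, ∀ i, F.coeff i = 0 ∨ -(B : ℤ) ≤ p.ord (F.coeff i) := by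
  refine ⟨∑ i ∈ F.support, (p.ord (F.coeff i)).natAbs, fun i => ?_⟩
  by_cases h : F.coeff i = 0
  · exact Or.inl h
  · right
    have h1 : (p.ord (F.coeff i)).natAbs ≤ ∑ i ∈ F.support, (p.ord (F.coeff i)).natAbs :=
      Finset.single_le_sum (f := fun i => (p.ord (F.coeff i)).natAbs) (fun _ _ => Nat.zero_le _)
        (Polynomial.mem_support_iff.2 h)
    omega

theorem reg_eval {F : K[X]} (hF : ∀ i, p.Reg (F.coeff i)) {x : K} (hx : p.Reg x) : p.Reg (F.eval x) := by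
  have : F ∈ Polynomial.lifts p.O.subtype := by
    rw [Polynomial.lifts_iff_coeff_lifts]
    intro n
    exact ⟨⟨F.coeff n, hF n⟩, rfl⟩
  obtain ⟨G, rfl⟩ := (Polynomial.mem_lifts F).1 this
  have h1 : (G.map p.O.subtype).eval x = p.O.subtype (G.eval ⟨x, hx⟩) := by
    rw [Polynomial.eval_map]
    exact Polynomial.eval₂_at_apply p.O.subtype (⟨x, hx⟩ : p.O)
  rw [h1]
  exact (G.eval ⟨x, hx⟩).2

theorem ord_eval {t : K} (ht : p.ord t = 1) (F : K[X]) (μ : ℕ) (h0 : ∀ i < μ, F.coeff i = 0)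
    (h1 : F.coeff μ ≠ 0) : ∃ A : ℕ, ∀ a : ℕ, A ≤ a → F.eval (t ^ a) ≠ 0 ∧
      p.ord (F.eval (t ^ a)) = a * μ + p.ord (F.coeff μ) := by
  have ht0 : t ≠ 0 := by
    rintro rfl
    rw [p.ord_zero] at ht; omega
  obtain ⟨F1, rfl⟩ := X_pow_dvd_iff.2 h0
  have hc : (X ^ μ * F1).coeff μ = F1.coeff 0 := by
    have := coeff_X_pow_mul F1 μ 0
    rwa [zero_add] at this
  rw [hc] at h1 ⊢
  obtain ⟨B, hB⟩ := exists_bound p F1.divX
  refine ⟨B + (p.ord (F1.coeff 0)).natAbs + 1, fun a ha => ?_⟩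
  have hta : t ^ a ≠ 0 := pow_ne_zero _ ht0
  have hreg : p.Reg (t ^ B * F1.divX.eval (t ^ a)) := by
    have h2 : t ^ B * F1.divX.eval (t ^ a) = (C (t ^ B) * F1.divX).eval (t ^ a) := by simp
    rw [h2]
    apply reg_eval p
    · intro i
      rw [coeff_C_mul]
      rcases hB i with h | h
      · rw [h, mul_zero]; exact p.reg_zero
      · by_cases h0 : F1.divX.coeff i = 0
        · rw [h0, mul_zero]; exact p.reg_zero
        · right
          rw [p.ord_mul (pow_ne_zero _ ht0) h0, p.ord_pow, ht]; omega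
    · right; rw [p.ord_pow, ht]; omega
  have heval : (X ^ μ * F1).eval (t ^ a) = (t ^ a) ^ μ * (F1.coeff 0 + F1.divX.eval (t ^ a) * t ^ a) := by
    conv_lhs => rw [← F1.divX_mul_X_add]
    rw [eval_mul, eval_pow, eval_X, eval_add, eval_mul, eval_X, eval_C]
    ring
  have hsum : F1.coeff 0 + F1.divX.eval (t ^ a) * t ^ a ≠ 0 ∧
      p.ord (F1.coeff 0 + F1.divX.eval (t ^ a) * t ^ a) = p.ord (F1.coeff 0) := by
    by_cases h3 : F1.divX.eval (t ^ a) = 0
    · rw [h3, zero_mul, add_zero]; exact ⟨h1, rfl⟩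
    · apply p.ord_add_eq h1 (mul_ne_zero h3 hta)
      have h4 := (p.reg_iff (mul_ne_zero (pow_ne_zero _ ht0) h3)).1 hreg
      rw [p.ord_mul (pow_ne_zero _ ht0) h3, p.ord_pow, ht] at h4
      rw [p.ord_mul h3 hta, p.ord_pow, ht]
      omega
  rw [heval]
  refine ⟨mul_ne_zero (pow_ne_zero _ hta) hsum.1, ?_⟩
  rw [p.ord_mul (pow_ne_zero _ hta) hsum.1, hsum.2, p.ord_pow, p.ord_pow, ht]
  ring

/-- lifting a polynomial to `O_p[X]` after scaling -/
theorem exists_scaled {t : K} (ht : p.ord t = 1) (B : ℕ) (F : K[X]) (h0 : p.Reg (F.coeff 0))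
    (hB : ∀ i, F.coeff i = 0 ∨ -(B : ℤ) ≤ p.ord (F.coeff i)) :
    ∃ G : (p.O)[X], (G.map p.O.subtype).comp (C (t ^ B)⁻¹ * X) = F := by
  have ht0 : t ≠ 0 := by
    rintro rfl
    rw [p.ord_zero] at ht; omega
  have : F.comp (C (t ^ B) * X) ∈ Polynomial.lifts p.O.subtype := by
    rw [Polynomial.lifts_iff_coeff_lifts]
    intro n
    have h1 : (F.comp (C (t ^ B) * X)).coeff n = F.coeff n * (t ^ B) ^ n := Polynomial.comp_C_mul_X_coeff
    rw [h1]
    refine ⟨⟨F.coeff n * (t ^ B) ^ n, ?_⟩, rfl⟩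
    change p.Reg _
    rcases Nat.eq_zero_or_pos n with rfl | hn
    · simpa using h0
    · rcases hB n with h | h
      · rw [h, zero_mul]; exact p.reg_zero
      · by_cases h2 : F.coeff n = 0
        · rw [h2, zero_mul]; exact p.reg_zero
        · right
          rw [p.ord_mul h2 (pow_ne_zero _ (pow_ne_zero _ ht0)), p.ord_pow, p.ord_pow, ht]
          have h3 : (B : ℤ) * 1 ≤ B * n := mul_le_mul_of_nonneg_left (by exact_mod_cast hn) (by positivity)
          nlinarith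
  obtain ⟨G, hG⟩ := (Polynomial.mem_lifts _).1 this
  refine ⟨G, ?_⟩
  rw [hG, Polynomial.comp_assoc]
  have h2 : (C (t ^ B) * X : K[X]).comp (C (t ^ B)⁻¹ * X) = X := by
    rw [mul_comp, C_comp, X_comp, ← mul_assoc, ← C_mul, mul_inv_cancel₀ (pow_ne_zero _ ht0), C_1, one_mul]
  rw [h2, comp_X]

/-- the jet homomorphism into power series -/
theorem exists_jet [CharZero k] {N : ℕ} (hN : 0 < N) (t : K) (ht : p.ord t = 1) (y : K) (hy0 : y ≠ 0) (m : ℕ)
    (hm : 0 < m) (hy : p.ord y = m) :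
    ∃ J : p.O →+* (PowerSeries p.RF ⧸ Ideal.span {(PowerSeries.X : PowerSeries p.RF) ^ N}),
      (∀ f : p.O, ((f : K) = 0 ∨ (N : ℤ) ≤ p.ord f) → J f = 0) ∧
      (∀ a : k, J (constO p a) = Ideal.Quotient.mk _ (PowerSeries.C (algebraMap k p.RF a))) ∧
      (∃ c : p.RF, c ≠ 0 ∧ ∀ h, J ⟨y, h⟩ = Ideal.Quotient.mk _ (PowerSeries.C c * PowerSeries.X ^ m)) ∧
      (∀ (f : p.O) (d : ℕ), (f : K) ≠ 0 → p.ord f = d → d < N →
        ∃ u : PowerSeries p.RF, IsUnit u ∧ J f = Ideal.Quotient.mk _ (PowerSeries.X ^ d * u)) := by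
  have ht0 : t ≠ 0 := by
    rintro rfl
    rw [p.ord_zero] at ht; omega
  obtain ⟨σ, hσk, hσ⟩ := exists_section p N hN
  obtain ⟨π, hπ, hyπ⟩ := exists_unif p hN σ hσ ⟨t, Or.inr (by omega)⟩ ht ⟨y, Or.inr (by omega)⟩ hy0 m hm hy
  obtain ⟨c, hcdef⟩ : ∃ c, c = p.red (y / t ^ m) := ⟨_, rfl⟩
  have hc0 : c ≠ 0 := by
    rw [hcdef]
    apply p.red_ne_zero (div_ne_zero hy0 (pow_ne_zero _ ht0))
    rw [p.ord_div hy0 (pow_ne_zero _ ht0), p.ord_pow, ht, hy]; ring
  obtain ⟨ϑ, hϑ⟩ := factor_hom (ev p σ π)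
    ((Ideal.Quotient.mk (Ideal.span {(PowerSeries.X : PowerSeries p.RF) ^ N})).comp
      (Polynomial.coeToPowerSeries.ringHom (R := p.RF))) (by
      intro F hF
      obtain ⟨G, rfl⟩ := ev_ker p hσ hπ hF
      change Ideal.Quotient.mk _ ((X ^ N * G : p.RF[X]) : PowerSeries p.RF) = 0
      rw [Ideal.Quotient.eq_zero_iff_mem, Ideal.mem_span_singleton, Polynomial.coe_mul, Polynomial.coe_pow,
        Polynomial.coe_X]
      exact dvd_mul_right _ _)
  have hsurj := ev_surjective p hσ hπ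
  have hr : ∀ q, q ∈ (ev p σ π).range := fun q => hsurj q
  let J : p.O →+* (PowerSeries p.RF ⧸ Ideal.span {(PowerSeries.X : PowerSeries p.RF) ^ N}) :=
    ϑ.comp ((Ideal.Quotient.mk (PI p N)).codRestrict (ev p σ π).range (fun f => hr _))
  have hJ : ∀ (f : p.O) (F : p.RF[X]), ev p σ π F = Ideal.Quotient.mk _ f →
      J f = Ideal.Quotient.mk _ (F : PowerSeries p.RF) := by
    intro f F hF
    have h1 := hϑ F (hr _)
    have h2 : (Ideal.Quotient.mk (PI p N)).codRestrict (ev p σ π).range (fun f => hr _) f = ⟨ev p σ π F, hr _⟩ :=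
      Subtype.ext hF.symm
    exact (congrArg ϑ h2).trans h1
  refine ⟨J, ?_, ?_, ⟨c, hc0, ?_⟩, ?_⟩
  · intro f hf
    rw [hJ f 0 (by
      rw [map_zero]
      exact ((Ideal.Quotient.eq_zero_iff_mem).2 ((mem_PI p).2 hf)).symm), Polynomial.coe_zero, map_zero]
  · intro a
    rw [hJ _ (C (algebraMap k p.RF a)) (by rw [ev_C, hσk]), Polynomial.coe_C]
  · intro h
    rw [hJ _ (C c * X ^ m) (by rw [map_mul, map_pow, ev_C, ev_X, hcdef, ← map_pow]; exact hyπ.symm),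
      Polynomial.coe_mul, Polynomial.coe_C, Polynomial.coe_pow, Polynomial.coe_X]
  · intro f d hf0 hf hd
    obtain ⟨F, hF⟩ := hsurj (Ideal.Quotient.mk _ f)
    obtain ⟨h1, h2⟩ := ev_lead p hσ hπ hF hd hf0 hf
    have hπ0 : (π : K) ≠ 0 := by
      intro h; rw [h, p.ord_zero] at hπ; omega
    have h3 : F.coeff d ≠ 0 := by
      rw [h2]
      apply p.red_ne_zero (div_ne_zero hf0 (pow_ne_zero _ hπ0))
      rw [p.ord_div hf0 (pow_ne_zero _ hπ0), p.ord_pow, hf, hπ]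
      ring
    obtain ⟨u, hu, hu2⟩ := coe_eq_X_pow_mul_unit F d h1 h3
    exact ⟨u, hu, by rw [hJ f F hF, hu2]⟩

end

end PL

namespace SF

open PL

theorem PL_I (k : Type) [Field k] [CharZero k]
    (L : Type) [Field L] [Algebra (LaurentSeries k) L] [Algebra k L] [IsScalarTower k (LaurentSeries k) L]
    [IsFF (LaurentSeries k) L] (w : Place k L) (m0 : ℤ)
    (hw : w.ord (algebraMap (LaurentSeries k) L (yv k)) = m0) (hm0 : 0 < m0) [IsFF k w.RF]
    (π : L) (hπ : w.ord π = 1) (p : Place k w.RF) (n0 : ℤ)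
    (hn0 : p.ord (w.red (algebraMap (LaurentSeries k) L (yv k) / π ^ m0)) = n0) (s : Finset L) :
    ∃ A : ℤ, ∀ a : ℤ, A ≤ a → ∃ (Ψ : Type) (_ : Field Ψ) (_ : Algebra (LaurentSeries k) Ψ),
      FiniteDimensional (LaurentSeries k) Ψ ∧
      (finrank (LaurentSeries k) Ψ : ℤ) = (a * m0 + n0) * p.deg ∧
      Nonempty (Algebra.adjoin (LaurentSeries k) (s : Set L) →ₐ[LaurentSeries k] Ψ) := by
  classical
  obtain ⟨m, rfl⟩ : ∃ m : ℕ, m0 = m := Int.eq_ofNat_of_zero_le hm0.le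
  have hm : 0 < m := by exact_mod_cast hm0
  rw [zpow_natCast] at hn0
  obtain ⟨N, μ, ν, Fξ, Fη, FD, FH, hmN, hμN, hνN, hFξ, hFη, hFD0, hFD1, hFH0, hFH1, hFDc, hFHc, hcore⟩ :=
    core w m hm hw π hπ s
  have hyv0 : yv k ≠ 0 := by
    unfold yv
    simp
  have hy0 : algebraMap (LaurentSeries k) L (yv k) ≠ 0 := by rw [Ne, map_eq_zero]; exact hyv0
  have hπ00 : π ≠ 0 := by
    rintro rfl
    rw [w.ord_zero] at hπ; omega
  obtain ⟨c0, hc0def⟩ : ∃ c0, c0 = w.red (algebraMap (LaurentSeries k) L (yv k) / π ^ m) := ⟨_, rfl⟩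
  have hc0 : c0 ≠ 0 := by
    rw [hc0def]
    apply w.red_ne_zero (div_ne_zero hy0 (pow_ne_zero _ hπ00))
    rw [w.ord_div hy0 (pow_ne_zero _ hπ00), w.ord_pow, hπ, hw]; ring
  rw [← hc0def] at hcore hn0
  obtain ⟨t, ht0, ht⟩ := p.surj
  obtain ⟨B0, hB0⟩ := exists_bound p (C c0 * X ^ m : w.RF[X])
  obtain ⟨B1, hB1⟩ := exists_bound p Fξ
  obtain ⟨B2, hB2⟩ := exists_bound p Fη
  obtain ⟨B3, hB3⟩ := exists_bound p FD
  obtain ⟨B4, hB4⟩ := exists_bound p FH
  obtain ⟨B, hB⟩ : ∃ B, B = B0 + B1 + B2 + B3 + B4 := ⟨_, rfl⟩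
  have hconst : ∀ F : w.RF[X], F.coeff 0 ∈ (algebraMap k w.RF).range → p.Reg (F.coeff 0) := by
    rintro F ⟨c, hc⟩
    rw [← hc]; exact p.reg_const c
  obtain ⟨x0, hx0⟩ := exists_scaled p ht B (C c0 * X ^ m : w.RF[X]) (by
    rw [coeff_C_mul, coeff_X_pow, if_neg hm.ne, mul_zero]; exact p.reg_zero)
    (fun i => (hB0 i).imp id (fun h => by omega))
  obtain ⟨x1, hx1⟩ := exists_scaled p ht B Fξ (by rw [hFξ]; exact p.reg_zero)
    (fun i => (hB1 i).imp id (fun h => by omega))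
  obtain ⟨x2, hx2⟩ := exists_scaled p ht B Fη (by rw [hFη]; exact p.reg_zero)
    (fun i => (hB2 i).imp id (fun h => by omega))
  obtain ⟨x3, hx3⟩ := exists_scaled p ht B FD (hconst _ hFDc)
    (fun i => (hB3 i).imp id (fun h => by omega))
  obtain ⟨x4, hx4⟩ := exists_scaled p ht B FH (hconst _ hFHc)
    (fun i => (hB4 i).imp id (fun h => by omega))
  obtain ⟨A1, hA1⟩ := ord_eval p ht FD μ hFD0 hFD1
  obtain ⟨A2, hA2⟩ := ord_eval p ht FH ν hFH0 hFH1
  obtain ⟨e1, he1⟩ : ∃ e1 : ℕ, e1 = (p.ord (FD.coeff μ)).natAbs := ⟨_, rfl⟩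
  obtain ⟨e2, he2⟩ : ∃ e2 : ℕ, e2 = (p.ord (FH.coeff ν)).natAbs := ⟨_, rfl⟩
  refine ⟨((A1 + A2 + B + n0.natAbs + (2 * e1 + B * (2 * μ + 1)) + (e2 + B * (ν + 1)) + 1 : ℕ) : ℤ), ?_⟩
  intro a ha
  obtain ⟨a', rfl⟩ : ∃ a' : ℕ, a = a' := Int.eq_ofNat_of_zero_le (by omega)
  have ha' : A1 + A2 + B + n0.natAbs + (2 * e1 + B * (2 * μ + 1)) + (e2 + B * (ν + 1)) + 1 ≤ a' := by
    exact_mod_cast ha
  obtain ⟨b, hb⟩ : ∃ b : ℕ, a' = b + B := ⟨a' - B, by omega⟩
  have hb1 : 1 ≤ b := by omega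
  have hbN : 0 < b * N := Nat.mul_pos hb1 (by omega)
  obtain ⟨M, hM⟩ : ∃ M : ℕ, (a' : ℤ) * m + n0 = M := by
    apply Int.eq_ofNat_of_zero_le
    have h1 : (a' : ℤ) * 1 ≤ a' * m := mul_le_mul_of_nonneg_left (by exact_mod_cast hm) (by positivity)
    omega
  have hM0 : 0 < M := by
    have h1 : (a' : ℤ) * 1 ≤ a' * m := mul_le_mul_of_nonneg_left (by exact_mod_cast hm) (by positivity)
    omega
  have hta : ∀ n : ℕ, t ^ n ≠ 0 := fun n => pow_ne_zero _ ht0
  have hy1 : c0 * (t ^ a') ^ m ≠ 0 := mul_ne_zero hc0 (pow_ne_zero _ (hta _))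
  have hy1o : p.ord (c0 * (t ^ a') ^ m) = M := by
    rw [p.ord_mul hc0 (pow_ne_zero _ (hta _)), p.ord_pow, p.ord_pow, ht, hn0, ← hM]; ring
  obtain ⟨J, hJ0, hJk, ⟨c, hc, hJc⟩, hJd⟩ := exists_jet p hbN t ht (c0 * (t ^ a') ^ m) hy1 M hM0 hy1o
  let tb : p.O := ⟨t ^ b, Or.inr (by rw [p.ord_pow, ht]; omega)⟩
  let E0 : (p.O)[X] →+* w.RF[X] := (compRingHom (C (t ^ B)⁻¹ * X)).comp (mapRingHom p.O.subtype)
  have hE0 : ∀ G, E0 G = (G.map p.O.subtype).comp (C (t ^ B)⁻¹ * X) := fun G => rfl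
  let ψ : (p.O)[X] →+* (PowerSeries p.RF ⧸ Ideal.span {(PowerSeries.X : PowerSeries p.RF) ^ (b * N)}) :=
    J.comp (evalRingHom tb)
  have hψ : ∀ G, ψ G = J (G.eval tb) := fun G => rfl
  have hev : ∀ G : (p.O)[X], ((G.eval tb : p.O) : w.RF) = (E0 G).eval (t ^ a') := by
    intro G
    rw [hE0, eval_comp, eval_mul, eval_C, eval_X]
    have h1 : (t ^ B)⁻¹ * t ^ a' = t ^ b := by
      rw [hb, pow_add]; field_simp
    rw [h1, Polynomial.eval_map]
    exact (Polynomial.eval₂_at_apply p.O.subtype tb).symm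
  have hNz : (2 * (μ : ℤ) + 1) ≤ N := by exact_mod_cast hμN
  have hNz2 : ((ν : ℤ) + 1) ≤ N := by exact_mod_cast hνN
  have hfin := hcore (p.O)[X] E0 (C.comp (constO p)) x0 x1 x2 x3 x4 (by
      intro a
      change (E0 (C (constO p a))) = _
      rw [hE0, Polynomial.map_C, C_comp]; rfl) hx0 hx1 hx2 hx3 hx4 p.RF (b * N) ψ (by
      intro G hG
      have h1 : ∀ i < N, G.coeff i = 0 := by
        intro i hi
        have h2 := X_pow_dvd_iff.1 hG i hi
        rw [hE0, Polynomial.comp_C_mul_X_coeff, Polynomial.coeff_map] at h2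
        have h3 := (mul_eq_zero.1 h2).resolve_right (pow_ne_zero _ (inv_ne_zero (hta _)))
        exact Subtype.ext h3
      obtain ⟨R, rfl⟩ := X_pow_dvd_iff.2 h1
      rw [hψ, eval_mul, eval_pow, eval_X]
      apply hJ0
      have h4 : p.ord ((tb ^ N : p.O) : w.RF) = b * N := by
        change p.ord ((t ^ b) ^ N) = _
        rw [p.ord_pow, p.ord_pow, ht]; ring
      have h5 : ((tb ^ N : p.O) : w.RF) ≠ 0 := pow_ne_zero _ (hta b)
      by_cases h6 : ((R.eval tb : p.O) : w.RF) = 0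
      · left
        change ((tb ^ N : p.O) : w.RF) * ((R.eval tb : p.O) : w.RF) = 0
        rw [h6, mul_zero]
      · right
        change _ ≤ p.ord (((tb ^ N : p.O) : w.RF) * ((R.eval tb : p.O) : w.RF))
        rw [p.ord_mul h5 h6, h4]
        have h7 := (p.reg_iff h6).1 (R.eval tb).2
        push_cast
        omega) (by
      intro a
      change J ((C (constO p a)).eval tb) = _
      rw [eval_C, hJk]) c hc M hM0 (by
      rw [hψ]
      have h1 : ((x0.eval tb : p.O) : w.RF) = c0 * (t ^ a') ^ m := by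
        rw [hev, hE0, hx0, eval_mul, eval_C, eval_pow, eval_X]
      have h0 : c0 * (t ^ a') ^ m ∈ p.O := by rw [← h1]; exact (x0.eval tb).2
      have h2 : x0.eval tb = ⟨c0 * (t ^ a') ^ m, h0⟩ := Subtype.ext h1
      rw [h2]
      exact hJc h0) (by
      have h1 : ((x3.eval tb : p.O) : w.RF) = FD.eval (t ^ a') := by
        rw [hev, hE0, hx3]
      obtain ⟨h2, h3⟩ := hA1 a' (by omega)
      rw [← h1] at h2 h3
      have h4 := (p.reg_iff h2).1 (x3.eval tb).2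
      obtain ⟨d, hd⟩ := Int.eq_ofNat_of_zero_le h4
      have h5 : 2 * d < b * N := by
        have h6 : (2 * (d : ℤ)) < b * N := by
          have h7 : (b : ℤ) * (2 * μ + 1) ≤ b * N := mul_le_mul_of_nonneg_left hNz (by positivity)
          have h8 : (d : ℤ) = a' * μ + p.ord (FD.coeff μ) := by rw [← h3, hd]
          have h9 : (a' : ℤ) = b + B := by exact_mod_cast hb
          have h10 : (2 * (e1 : ℤ) + B * (2 * μ + 1)) + B + 1 ≤ a' := by
            have : 2 * e1 + B * (2 * μ + 1) + B + 1 ≤ a' := by omega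
            exact_mod_cast this
          have h11 : p.ord (FD.coeff μ) ≤ e1 := by omega
          nlinarith
        exact_mod_cast h6
      obtain ⟨u, hu, hu2⟩ := hJd (x3.eval tb) d h2 hd (by omega)
      exact ⟨d, u, hu, h5, hu2⟩) (by
      have h1 : ((x4.eval tb : p.O) : w.RF) = FH.eval (t ^ a') := by
        rw [hev, hE0, hx4]
      obtain ⟨h2, h3⟩ := hA2 a' (by omega)
      rw [← h1] at h2 h3
      have h4 := (p.reg_iff h2).1 (x4.eval tb).2
      obtain ⟨d, hd⟩ := Int.eq_ofNat_of_zero_le h4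
      have h5 : d < b * N := by
        have h6 : (d : ℤ) < b * N := by
          have h7 : (b : ℤ) * (ν + 1) ≤ b * N := mul_le_mul_of_nonneg_left hNz2 (by positivity)
          have h8 : (d : ℤ) = a' * ν + p.ord (FH.coeff ν) := by rw [← h3, hd]
          have h9 : (a' : ℤ) = b + B := by exact_mod_cast hb
          have h10 : ((e2 : ℤ) + B * (ν + 1)) + B + 1 ≤ a' := by
            have : e2 + B * (ν + 1) + B + 1 ≤ a' := by omega
            exact_mod_cast this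
          have h11 : p.ord (FH.coeff ν) ≤ e2 := by omega
          nlinarith
        exact_mod_cast h6
      obtain ⟨u, hu, hu2⟩ := hJd (x4.eval tb) d h2 hd h5
      rw [hψ, hu2, Ne, Ideal.Quotient.eq_zero_iff_mem, Ideal.mem_span_singleton, PowerSeries.X_pow_dvd_iff]
      intro h
      have h6 := h d h5
      rw [PowerSeries.coeff_X_pow_mul', if_pos le_rfl, Nat.sub_self, PowerSeries.coeff_zero_eq_constantCoeff] at h6
      rw [PowerSeries.isUnit_iff_constantCoeff, isUnit_iff_ne_zero] at hu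
      exact hu h6)
  obtain ⟨Ψ, i1, i2, h1, h2, h3⟩ := finish s _ hc M hM0 hfin
  refine ⟨Ψ, i1, i2, h1, ?_, h3⟩
  rw [h2, hM]
  rfl

end SF
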