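import Pool.Agent.Helper807.PL.Core

/-! The point lemma, case II. -/

set_option autoImplicit false
set_option linter.all false

open Module Polynomial FF SF
open HahnSeries (ofPowerSeries ofPowerSeries_X ofPowerSeries_C)

namespace PL

/-- a polynomial over a field as a power series: leading part -/
theorem coe_eq_X_pow_mul_unit {κ : Type*} [Field κ] (p : κ[X]) (μ : ℕ) (h0 : ∀ i < μ, p.coeff i = 0)
    (h1 : p.coeff μ ≠ 0) : ∃ u : PowerSeries κ, IsUnit u ∧ (p : PowerSeries κ) = PowerSeries.X ^ μ * u := by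
  obtain ⟨q, rfl⟩ := X_pow_dvd_iff.2 h0
  refine ⟨(q : PowerSeries κ), ?_, by simp⟩
  rw [PowerSeries.isUnit_iff_constantCoeff, isUnit_iff_ne_zero]
  have : (X ^ μ * q).coeff μ = q.coeff 0 := by
    have := coeff_X_pow_mul q μ 0
    rwa [zero_add] at this
  rw [this] at h1
  simpa using h1

/-- the algebra hom from the ring hom of `core` -/
theorem finish {k L κ : Type} [Field k] [Field L] [Algebra (LaurentSeries k) L]
    [Field κ] [Algebra k κ] [FiniteDimensional k κ] (s : Finset L) (c : κ) (hc : c ≠ 0) (m : ℕ) (hm : 0 < m)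
    (h : ∃ φ : Algebra.adjoin (LaurentSeries k) (s : Set L) →+* LaurentSeries κ,
              ∀ r, φ (algebraMap _ _ r) = iota (algebraMap k κ) c hc m hm r) :
    ∃ (Ψ : Type) (_ : Field Ψ) (_ : Algebra (LaurentSeries k) Ψ),
      FiniteDimensional (LaurentSeries k) Ψ ∧
      (finrank (LaurentSeries k) Ψ : ℤ) = m * finrank k κ ∧
      Nonempty (Algebra.adjoin (LaurentSeries k) (s : Set L) →ₐ[LaurentSeries k] Ψ) := by
  obtain ⟨φ, hφ⟩ := h
  obtain ⟨h1, h2⟩ := finrank_iota (k := k) c hc m hm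
  refine ⟨LaurentSeries κ, inferInstance, (iota (algebraMap k κ) c hc m hm).toAlgebra, h1, ?_, ?_⟩
  · rw [h2]; push_cast; rfl
  · letI := (iota (algebraMap k κ) c hc m hm).toAlgebra
    exact ⟨{ φ with commutes' := hφ }⟩

end PL

namespace SF

open PL

theorem PL_II (k : Type) [Field k] [CharZero k] (z x : k) (hk : IsK k z x)
    (L : Type) [Field L] [Algebra (LaurentSeries k) L] [Algebra k L] [IsScalarTower k (LaurentSeries k) L]
    [IsFF (LaurentSeries k) L] (w : Place k L)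
    (hw : 0 < w.ord (algebraMap (LaurentSeries k) L (yv k)))
    (hx : ¬ ∃ c : w.RF, c ^ 3 = algebraMap k w.RF x) (s : Finset L) :
    ∃ (Ψ : Type) (_ : Field Ψ) (_ : Algebra (LaurentSeries k) Ψ),
      FiniteDimensional (LaurentSeries k) Ψ ∧
      (finrank (LaurentSeries k) Ψ : ℤ) = w.ord (algebraMap (LaurentSeries k) L (yv k)) ∧
      Nonempty (Algebra.adjoin (LaurentSeries k) (s : Set L) →ₐ[LaurentSeries k] Ψ) := by
  classical
  obtain ⟨m0, hm0⟩ := Int.eq_ofNat_of_zero_le hw.le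
  have hm0' : 0 < m0 := by
    rw [hm0] at hw; exact_mod_cast hw
  obtain ⟨π₀, hπ00, hπ₀⟩ := w.surj
  obtain ⟨N, μ, ν, Fξ, Fη, FD, FH, hmN, hμN, hνN, hFξ, hFη, hFD0, hFD1, hFH0, hFH1, -, -, hcore⟩ :=
    core w m0 hm0' hm0 π₀ hπ₀ s
  have hyv0 : yv k ≠ 0 := by
    unfold yv
    simp
  have hy0 : algebraMap (LaurentSeries k) L (yv k) ≠ 0 := by rw [Ne, map_eq_zero]; exact hyv0
  obtain ⟨c0, hc0def⟩ : ∃ c0, c0 = w.red (algebraMap (LaurentSeries k) L (yv k) / π₀ ^ m0) := ⟨_, rfl⟩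
  have hc0 : c0 ≠ 0 := by
    rw [hc0def]
    apply w.red_ne_zero (div_ne_zero hy0 (pow_ne_zero _ hπ00))
    rw [w.ord_div hy0 (pow_ne_zero _ hπ00), w.ord_pow, hπ₀, hm0]; ring
  rw [← hc0def] at hcore
  let T : Finset w.RF := {c0, c0⁻¹, (FD.coeff μ)⁻¹, (FH.coeff ν)⁻¹} ∪ Fξ.coeffs ∪ Fη.coeffs ∪ FD.coeffs ∪ FH.coeffs
  obtain ⟨φ0⟩ := hk.ec w.RF hx T
  let κ0 := Algebra.adjoin k (T : Set w.RF)
  have hT : ∀ c ∈ T, c ∈ κ0 := fun c hc => Algebra.subset_adjoin hc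
  have hlift : ∀ F : w.RF[X], F.coeffs ⊆ T → ∃ F' : κ0[X], F'.map (κ0.val : κ0 →+* w.RF) = F := by
    intro F hF
    have : F ∈ Polynomial.lifts (κ0.val : κ0 →+* w.RF) := by
      rw [Polynomial.lifts_iff_coeff_lifts]
      intro n
      by_cases h : F.coeff n = 0
      · exact ⟨0, by rw [h, map_zero]⟩
      · exact ⟨⟨F.coeff n, hT _ (hF (Polynomial.coeff_mem_coeffs h))⟩, rfl⟩
    exact (Polynomial.mem_lifts F).1 this
  obtain ⟨x1, hx1⟩ := hlift Fξ (by intro c hc; simp [T, hc])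
  obtain ⟨x2, hx2⟩ := hlift Fη (by intro c hc; simp [T, hc])
  obtain ⟨x3, hx3⟩ := hlift FD (by intro c hc; simp [T, hc])
  obtain ⟨x4, hx4⟩ := hlift FH (by intro c hc; simp [T, hc])
  let ψ : κ0[X] →+* (PowerSeries k ⧸ Ideal.span {(PowerSeries.X : PowerSeries k) ^ N}) :=
    (Ideal.Quotient.mk _).comp ((Polynomial.coeToPowerSeries.ringHom (R := k)).comp (mapRingHom (φ0 : κ0 →+* k)))
  have hψdef : ∀ F, ψ F = Ideal.Quotient.mk _ ((F.map (φ0 : κ0 →+* k) : k[X]) : PowerSeries k) := fun F => rfl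
  have hinv : ∀ (c : w.RF) (h1 : c ∈ κ0) (h2 : c⁻¹ ∈ κ0), c ≠ 0 → φ0 ⟨c, h1⟩ ≠ 0 := by
    intro c h1 h2 hc h
    have h3 : φ0 (⟨c, h1⟩ * ⟨c⁻¹, h2⟩) = 1 := by
      rw [← map_one φ0]
      congr 1
      exact Subtype.ext (mul_inv_cancel₀ hc)
    rw [map_mul, h, zero_mul] at h3
    exact zero_ne_one h3
  have hc0T : c0 ∈ κ0 := hT _ (by simp [T])
  have hc := hinv c0 hc0T (hT _ (by simp [T])) hc0
  have hcoef : ∀ (F' : κ0[X]) (F : w.RF[X]), F'.map (κ0.val : κ0 →+* w.RF) = F → ∀ i,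
      ((F'.coeff i : κ0) : w.RF) = F.coeff i := by
    intro F' F h i
    rw [← h, Polynomial.coeff_map]; rfl
  have hcoef0 : ∀ (F' : κ0[X]) (F : w.RF[X]), F'.map (κ0.val : κ0 →+* w.RF) = F → ∀ i, F.coeff i = 0 →
      (F'.map (φ0 : κ0 →+* k)).coeff i = 0 := by
    intro F' F h i hi
    rw [Polynomial.coeff_map]
    have : F'.coeff i = 0 := Subtype.ext ((hcoef F' F h i).trans hi)
    rw [this]; exact map_zero _
  have hcoef1 : ∀ (F' : κ0[X]) (F : w.RF[X]), F'.map (κ0.val : κ0 →+* w.RF) = F → ∀ i, F.coeff i ≠ 0 →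
      (F.coeff i)⁻¹ ∈ κ0 → (F'.map (φ0 : κ0 →+* k)).coeff i ≠ 0 := by
    intro F' F h i hi h2
    rw [Polynomial.coeff_map]
    have h3 : F'.coeff i = ⟨F.coeff i, by rw [← hcoef F' F h i]; exact Subtype.coe_prop _⟩ :=
      Subtype.ext (hcoef F' F h i)
    rw [h3]
    exact hinv _ _ h2 hi
  have hfin := hcore κ0[X] (mapRingHom (κ0.val : κ0 →+* w.RF)) (C.comp (algebraMap k κ0)) (C ⟨c0, hc0T⟩ * X ^ m0)
    x1 x2 x3 x4 (by
      intro a
      change (C (algebraMap k κ0 a)).map (κ0.val : κ0 →+* w.RF) = _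
      rw [Polynomial.map_C]; rfl) (by
      change (C (⟨c0, hc0T⟩ : κ0) * X ^ m0).map (κ0.val : κ0 →+* w.RF) = _
      rw [Polynomial.map_mul, Polynomial.map_C, Polynomial.map_pow, Polynomial.map_X]; rfl)
    hx1 hx2 hx3 hx4 k N ψ (by
      intro F hF
      rw [hψdef, Ideal.Quotient.eq_zero_iff_mem, Ideal.mem_span_singleton, PowerSeries.X_pow_dvd_iff]
      intro i hi
      rw [Polynomial.coeff_coe]
      refine hcoef0 F _ rfl i ?_
      exact X_pow_dvd_iff.1 hF i hi) (by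
      intro a
      rw [hψdef]
      congr 1
      change (((C (algebraMap k κ0 a)).map (φ0 : κ0 →+* k) : k[X]) : PowerSeries k) = _
      rw [Polynomial.map_C, Polynomial.coe_C]
      congr 1
      change φ0 (algebraMap k κ0 a) = _
      rw [φ0.commutes]) (φ0 ⟨c0, hc0T⟩) hc m0 hm0' (by
      rw [hψdef]
      congr 1
      rw [Polynomial.map_mul, Polynomial.map_C, Polynomial.map_pow, Polynomial.map_X, Polynomial.coe_mul,
        Polynomial.coe_C, Polynomial.coe_pow, Polynomial.coe_X]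
      rfl) (by
      obtain ⟨u, hu, hu2⟩ := coe_eq_X_pow_mul_unit (x3.map (φ0 : κ0 →+* k)) μ
        (fun i hi => hcoef0 x3 FD hx3 i (hFD0 i hi)) (hcoef1 x3 FD hx3 μ hFD1 (hT _ (by simp [T])))
      exact ⟨μ, u, hu, hμN, by rw [hψdef, hu2]⟩) (by
      rw [hψdef, Ne, Ideal.Quotient.eq_zero_iff_mem, Ideal.mem_span_singleton, PowerSeries.X_pow_dvd_iff]
      intro h
      have := h ν hνN
      rw [Polynomial.coeff_coe] at this
      exact hcoef1 x4 FH hx4 ν hFH1 (hT _ (by simp [T])) this)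
  obtain ⟨Ψ, i1, i2, h1, h2, h3⟩ := finish s _ hc m0 hm0' hfin
  exact ⟨Ψ, i1, i2, h1, by rw [h2, hm0, finrank_self]; simp, h3⟩

end SF
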